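import Mathlib
import Pool.Agent.Lib.MP_fdcb14_pr.W.Defs
import Pool.Agent.Lib.MP_fdcb14_pr.W.Interfaces
import Pool.Agent.Lib.MP_fdcb14_pr.W.H47.Run
import Pool.Agent.Lib.MP_fdcb14_pr.W.H53.Heavy
import Pool.Agent.Lib.MP_fdcb14_pr.W.H65.Line
import Pool.Agent.Lib.MP_fdcb14_pr.W.H78.Slab
import Pool.Agent.Lib.MP_fdcb14_pr.W.H97.Zero
import Pool.Agent.Lib.MP_fdcb14_pr.W.H97.Asym
import Pool.Agent.Lib.MP_fdcb14_pr.W.H97.Main
import Pool.Agent.Lib.MP_fdcb14_pr.W.H97.Corr
import Pool.Agent.Lib.MP_fdcb14_pr.W.H97.Global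
import Pool.Agent.Lib.MP_fdcb14_pr.W.H97.Ideal
import Pool.Agent.Lib.MP_fdcb14_pr.W.H97.Lattice
import Pool.Agent.Lib.MP_fdcb14_pr.W.H97.Small
import Pool.Agent.Lib.MP_fdcb14_pr.W.H97.Stages

/-!
# MP_fdcb14_pr: every windrose remembers its initial state for a time `exp (ε ^ (-c))`

The neighbourhood is a finite set `S ⊆ ℤ^d` with `S = -S`, `|S|` odd, not contained in a line
(a windrose). The random voting replaces the majority value by `0` with probability `ε` and by `1`
with probability `ε`. There are `c > 0` and `ε0 > 0` such that for every `0 < ε < ε0` and every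
time `t ≤ exp (ε ^ (-c))` the configuration started from all zeros has a `1` at a given site with
probability at most `√ε`, and the configuration started from all ones has a `0` there with
probability at most `√ε`.
-/

namespace Pool.Agent.Results.MP_fdcb14_pr.LongMemory

open MeasureTheory ProbabilityTheory Pool.Agent.Lib.MP_fdcb14_pr

universe u

/-- Every windrose with small symmetric noise remembers its initial state up to a time that is
larger than every power of `1 / ε`. -/
theorem result :
    ∀ (d : ℕ) (S : Finset (Site d)), (∀ s ∈ S, -s ∈ S) → Odd S.card →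
      ¬ Collinear ℝ {x : Fin d → ℝ | ∃ s ∈ S, x = fun i => (s i : ℝ)} →
      ∃ c : ℝ, 0 < c ∧ ∃ ε0 : ℝ, 0 < ε0 ∧ ∀ ε : ℝ, 0 < ε → ε < ε0 →
        ∀ (Ω : Type u) [MeasurableSpace Ω] (μ : Measure Ω) [IsProbabilityMeasure μ]
          (ξ : ℕ → Site d → Ω → Err), IsNoise μ ξ ε →
          ∀ t : ℕ, (t : ℝ) ≤ Real.exp (ε ^ (-c)) → ∀ v : Site d,
            μ {ω | traj S (fun s w => ξ s w ω) (fun _ => false) t v = true} ≤
              ENNReal.ofReal (Real.sqrt ε) ∧
            μ {ω | traj S (fun s w => ξ s w ω) (fun _ => true) t v = false} ≤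
              ENNReal.ofReal (Real.sqrt ε) :=
  H97.main (H97.zero H97.funs H97.phig (H65.line H97.ideal (H97.corr H97.ideal H97.poisson))
    H97.color H97.ballS H97.speed H97.global (H78.slab H97.stages H47.runS H97.exsub H97.exshift)
    (H53.heavy H97.ballS) H97.asym)

end Pool.Agent.Results.MP_fdcb14_pr.LongMemory
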